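import Mathlib
import Pool.Agent.H485R3.Density.Main

/-!
# The proportion of Weil numbers in a CM field with exotic Tate classes tends to zero

The definitions `IsWeilNumber`, `HasEigenvalues`, `tateClasses`, `TateClassesGenerated` are those
of `Pool/Agent/H485R3/Density/Defs.lean`.
-/

set_option autoImplicit false

namespace Pool.Agent.Results.MP_557161_ag.FewExoticWeilNumbers

open NumberField Pool.Agent.H485R3.Density

/-- The Weil numbers in `K` of absolute value `p ^ (a / 2)`. -/
def weilNumbers (K : Type*) [Field K] (p a : ℕ) : Set K := {π : K | IsWeilNumber p a π}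

/-- Those for which not all Tate classes are generated in degree two. -/
def exoticWeilNumbers (K : Type*) [Field K] (p a : ℕ) : Set K :=
  {π : K | IsWeilNumber p a π ∧ ¬ TateClassesGenerated π (p ^ a)}

theorem result (p : ℕ) [Fact p.Prime] {K : Type*} [Field K] [NumberField K] [IsCMField K]
    (x₀ : K →+* ℚ_[p]) :
    ∃ h : ℕ, 0 < h ∧ ∀ a : ℕ, (weilNumbers K p a).Finite ∧
      (exoticWeilNumbers K p a).ncard * (a / h) ≤
        (weilNumbers K p a).ncard * (Module.finrank ℚ K / 2) := by
  obtain ⟨h, hh, h1⟩ := density_main p x₀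
  exact ⟨h, hh, fun a => ⟨weil_finite p K a, h1 a⟩⟩

end Pool.Agent.Results.MP_557161_ag.FewExoticWeilNumbers
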