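import Mathlib
import Pool.Agent.H868R3.PoleMain
import Pool.Agent.H194R3.Tate.PairMain

/-!
# Poles of zeta functions of abelian varieties over finite fields: pair-transitive Frobenius fields

Let `q = p ^ a`, and let `π i` be finitely many Weil `q`-numbers, such that all powers of `π i`
generate a CM field `K i` of degree `2 * n i` (the simple abelian variety given by `π i` is
absolutely simple).  Suppose that the maximal real subfield of `K i` is pair-transitive (the
automorphisms of the complex numbers act transitively on the unordered pairs of its embeddings; no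
other condition on `K i`), that `n i` is odd, or `n i - 1` is prime, or the action on the unordered
triples is transitive as well (for example: Galois group the symmetric or alternating group, any
degree), that no `π i` is of Weil type, and that embeddings of `K i` and `K j`, for different `i`
and `j`, are flipped. There is no condition on the slopes.

Let `A` be any product of powers of the simple abelian varieties over the field with `q` elements
that correspond to the `π i`, or any abelian variety isogenous to such a product; `V` is its first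
`ℓ`-adic cohomology (with coefficients extended to the complex numbers) and `F` the Frobenius.
Then, for all `s > 0`, the zeta function of `A` over the extension of degree `s` has at `z = n` a
pole of order equal to the dimension of the space spanned by the products of `n` classes of
divisors (the classes `y` of degree two with `F y = q y`, by the theorem of Tate), which is the
rank of the group of cycles of codimension `n` modulo numerical equivalence.
-/

set_option autoImplicit false

namespace Pool.Agent.Results.MP_557161_ag.PairTransitivePoleOrder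

open Module NumberField Pool.Agent.H868R3.TwoOdd Pool.Agent.H194R3.CM Pool.Agent.H194R3.Tate

/-- `zeta q F z` is the product of the `det (1 - q ^ (-z) F | ⋀ ^ j V) ^ ((-1) ^ (j + 1))`, and
`divisorProducts q F n` is the span of the products of `n` elements `y` of `⋀ ^ 2 V` with
`F y = q y`. -/
theorem result (p : ℕ) [Fact p.Prime] (a : ℕ) (ha : 0 < a) {I : Type} [Finite I] (K : I → Type)
    [∀ i, Field (K i)] [∀ i, NumberField (K i)] [∀ i, IsCMField (K i)]
    (hpair : ∀ i, PairTransitive (maximalRealSubfield (K i)))
    (hdeg : ∀ i, Odd (finrank ℚ (maximalRealSubfield (K i))) ∨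
      (finrank ℚ (maximalRealSubfield (K i)) - 1).Prime ∨
        TripleTransitive (maximalRealSubfield (K i)))
    (hflip : ∀ x y : Σ i, (K i →+* ℂ), y.1 ≠ x.1 → Flipped x y)
    (π : ∀ i, K i) (hint : ∀ i, IsIntegral ℤ (π i))
    (hgen : ∀ i, ∀ s : ℕ, 0 < s → IntermediateField.adjoin ℚ {π i ^ s} = ⊤)
    (hweil : ∀ i, ∀ φ : K i →+* ℂ, ‖φ (π i)‖ ^ 2 = (p : ℝ) ^ a)
    (hW : ∀ i, ¬ WeilSlopes p (π i) a)
    {V : Type*} [AddCommGroup V] [Module ℂ V] [FiniteDimensional ℂ V] (F : V →ₗ[ℂ] V)
    (hF : Submodule.span ℂ {v : V | ∃ i, ∃ σ : K i →+* ℂ, F v = σ (π i) • v} = ⊤)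
    (s : ℕ) (hs : 0 < s) (n : ℕ) :
    meromorphicOrderAt (zeta (((p : ℝ) ^ a) ^ s) (F ^ s)) (n : ℂ) =
      ((- (finrank ℂ (divisorProducts ((p : ℂ) ^ a) F n) : ℤ) : ℤ) : WithTop ℤ) := by
  have hq : (0 : ℚ) < (p : ℚ) ^ a := pow_pos (by exact_mod_cast (Fact.out : p.Prime).pos) a
  have hp1 : (1 : ℝ) < p := by exact_mod_cast (Fact.out : p.Prime).one_lt
  have hcast : (((p : ℚ) ^ a : ℚ) : ℂ) = (p : ℂ) ^ a := by
    push_cast
    rfl
  have hcast2 : (((p : ℝ) ^ a : ℝ) : ℂ) = (p : ℂ) ^ a := by
    push_cast
    rfl
  have hweil' : ∀ i, ∀ φ : K i →+* ℂ, ‖φ (π i)‖ ^ 2 = (((p : ℚ) ^ a : ℚ) : ℝ) := by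
    intro i φ
    rw [hweil i φ]
    push_cast
    rfl
  rw [← hcast2]
  refine zeta_order_ext ((p : ℝ) ^ a) (one_lt_pow₀ hp1 ha.ne') F
    {μ : ℂ | ∃ i, ∃ σ : K i →+* ℂ, σ (π i) = μ} ?_ ?_ s hs ?_ n
  · rintro _ ⟨i, σ, rfl⟩
    exact hweil i σ
  · rw [← hF]
    congr 1
    ext v
    constructor
    · rintro ⟨μ, ⟨i, σ, rfl⟩, h⟩
      exact ⟨i, σ, h⟩
    · rintro ⟨i, σ, h⟩
      exact ⟨_, ⟨i, σ, rfl⟩, h⟩
  · intro n x hx h
    rw [hcast2] at h ⊢
    rw [← hcast] at h ⊢
    exact ext_of_norel p ((p : ℚ) ^ a) hq π
      (fun i => by simpa only [pow_one] using hgen i 1 one_pos) hweil'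
      (fun _ => norel_of_pair p (fun _ => a) π hint hgen hweil' hpair hdeg hW hflip)
      F hF n s hs x hx h

end Pool.Agent.Results.MP_557161_ag.PairTransitivePoleOrder
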