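import Mathlib
import Pool.Agent.H868R3.PoleMain

/-!
# Poles of zeta functions of abelian varieties over finite fields: 2-power degree, independent
# discriminants

Let `K i` be finitely many CM fields of degrees `2 ^ (k i + 1)` whose discriminants are independent
modulo squares (no product of the discriminants over a nonempty set of indices is a square).  Let
`π i` be a Weil number of weight one for `q = p ^ a` which generates `K i`, and suppose that the
numbers `2 v (τ (π i)) - a`, `τ` running through the embeddings of `K i` in an algebraic closure of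
the `p`-adic numbers, are all of the form `κ i * odd`, with `κ i ≠ 0` (for example the ordinary
case: all are `± a`).

Let `A` be any product of powers of the simple abelian varieties over the field with `q` elements
that correspond to the `π i`, or any abelian variety isogenous to such a product; `V` is its first
`ℓ`-adic cohomology (with coefficients extended to the complex numbers) and `F` the Frobenius.
Then, for all `s > 0`, the zeta function of `A` over the extension of degree `s` has at `z = n` a
pole of order equal to the dimension of the space spanned by the products of `n` classes of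
divisors (the classes `y` of degree two with `F y = q y`, by the theorem of Tate), which is the
rank of the group of cycles of codimension `n` modulo numerical equivalence.
-/

set_option autoImplicit false

namespace Pool.Agent.Results.MP_557161_ag.PoleOrder

open Module Pool.Agent.H868R3.TwoOdd

/-- `zeta q F z` is the product of the `det (1 - q ^ (-z) F | ⋀ ^ j V) ^ ((-1) ^ (j + 1))`, and
`divisorProducts q F n` is the span of the products of `n` elements `y` of `⋀ ^ 2 V` with
`F y = q y`. -/
theorem result (p : ℕ) [Fact p.Prime] (a : ℕ) (ha : 0 < a) {I : Type} [Finite I] (K : I → Type)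
    [∀ i, Field (K i)] [∀ i, NumberField (K i)] [∀ i, NumberField.IsCMField (K i)]
    (k : I → ℕ) (hdeg : ∀ i, finrank ℚ (K i) = 2 ^ (k i + 1))
    (hdisc : ∀ S : Finset I, S.Nonempty → ¬ IsSquare (∏ i ∈ S, NumberField.discr (K i)))
    (π : ∀ i, K i) (hgen : ∀ i, IntermediateField.adjoin ℚ {π i} = ⊤)
    (hweil : ∀ i, ∀ φ : K i →+* ℂ, ‖φ (π i)‖ ^ 2 = (p : ℝ) ^ a)
    (κ : I → ℚ) (hκ : ∀ i, κ i ≠ 0) (o : ∀ i, (K i →+* PadicAlgCl p) → ℤ)
    (hodd : ∀ i τ, Odd (o i τ))
    (hslope : ∀ i, ∀ τ : K i →+* PadicAlgCl p,
      2 * (- Real.logb p ‖τ (π i)‖) - a = (κ i : ℝ) * o i τ)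
    {V : Type*} [AddCommGroup V] [Module ℂ V] [FiniteDimensional ℂ V] (F : V →ₗ[ℂ] V)
    (hF : Submodule.span ℂ {v : V | ∃ i, ∃ σ : K i →+* ℂ, F v = σ (π i) • v} = ⊤)
    (s : ℕ) (hs : 0 < s) (n : ℕ) :
    meromorphicOrderAt (zeta (((p : ℝ) ^ a) ^ s) (F ^ s)) (n : ℂ) =
      ((- (finrank ℂ (divisorProducts ((p : ℂ) ^ a) F n) : ℤ) : ℤ) : WithTop ℤ) :=
  pole_main p a ha K k hdeg hdisc π hgen hweil κ hκ o hodd hslope F hF s hs n

end Pool.Agent.Results.MP_557161_ag.PoleOrder
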