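import Pool.Agent.H447R3.PoC

open CategoryTheory AlgebraicGeometry

universe u v

open Pool.Agent.H914 Pool.Agent.H914.VarClass Pool.Agent.H914.VarClass.Obj Pool.Agent.H447

/-- **Tate's conjecture on the orders of the poles of the zeta function of the square of a
variety.** Let `X` be a smooth proper variety of dimension `n ≥ 1` over an algebraically closed
field, `W` a Weil cohomology theory, `D` a divisor on `X` whose class satisfies hard Lefschetz, and
`f` an endomorphism of `X` such that `f × f` acts on the algebraic classes on `X × X` like the
Frobenius endomorphism relative to a field with `q` elements. Say that the conjecture holds at `j`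
for `X × X` (or for `X`) if the number of eigenvalues of `(f × f)^*` on `H^(2j)(X × X)` (of `f^*`
on `H^(2j)(X)`) which are `q ^ j` times a root of unity (the order of the pole of the zeta function
at `s = j`, over all sufficiently large finite fields) is the rank of the group of cycles of
codimension `j` modulo numerical equivalence. Then the following are equivalent: `X` satisfies the
Lefschetz standard conjecture, the conjecture holds for `X` at all `j`, and it holds for `X × X` at
all `j ≠ n`; it holds for `X × X` at `n - 1`; it holds for `X × X` at `n + 1`. -/
theorem Pool.Agent.Results.MP_557161_ag.PolesOnSquares.result {k : Type u} [Field k]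
    [IsAlgClosed k] {𝒱 : VarClass k} {ops : CycleOps 𝒱} (W : WeilCohomology.{u, v} ops)
    (X : 𝒱.Obj) (hn : 1 ≤ X.dim) (D : X.Cycles) (hD : X.IsCyc 1 D) (hHL : HardLefschetz W X D)
    (f : X ⟶ X) (q : ℕ) (hq : q ≠ 0) (hF : FrobeniusOnCycles W (X.prod X) (squareMap f) q) :
    List.TFAE [
      LefschetzB W X D ∧ (∀ j ≤ X.dim, PoleConj W X f q j) ∧
        ∀ j ≤ 2 * X.dim, j ≠ X.dim → PoleConj W (X.prod X) (squareMap f) q j,
      PoleConj W (X.prod X) (squareMap f) q (X.dim - 1),
      PoleConj W (X.prod X) (squareMap f) q (X.dim + 1)] :=
  pole_tfae' hn hD hHL hq hF
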